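import Pool.Agent.Helper46.R.LagNat
import Pool.Agent.Helper46.R.LagAll

set_option autoImplicit false

namespace Pool.Agent.Results.MP_e1cc60_co.AllDensities

open Finset

/-- The number `f_r(n)` of isomorphism classes of matroids of rank `r` on `n` elements. -/
noncomputable def f (n r : ℕ) : ℕ :=
  Nat.card (Quot (fun M₁ M₂ : {M : Matroid (Fin n) // M.E = Set.univ ∧ M.eRank = (r : ℕ∞)} =>
    ∃ σ : Equiv.Perm (Fin n), ∀ I : Set (Fin n), M₁.val.Indep I ↔ M₂.val.Indep (σ '' I)))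

/-- Unimodality of `r ↦ f_r(n)` up to lag `J`, with the peak in the middle: `f_i(n) ≤ f_j(n)` whenever
`i + J ≤ j ≤ n / 2`, and `f_j(n) ≤ f_i(n)` whenever `n / 2 ≤ i ≤ j - J`.
(Lag `1` is unimodality in the usual sense.) -/
def UnimodalUpToLag (J n : ℕ) : Prop :=
  (∀ i j : ℕ, i + J ≤ j → 2 * j ≤ n → f n i ≤ f n j) ∧
  (∀ i j : ℕ, n ≤ 2 * i → i + J ≤ j → f n j ≤ f n i)

open Classical in
/-- (1) Natural density: for every `J ≥ 3` and all large `N`, unimodality up to lag `J` holds for all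
but at most `C N / J` of the `n` with `N / 2 < n ≤ N`, with `C` independent of `J`.
(2) Logarithmic density: for every `J ≥ 3`, unimodality up to lag `J` holds for a set of `n` of lower
logarithmic density at least `1 - 2 / J`.
(3) All large `n`: if `i ≤ j ≤ n / 2` and `(j - i) (n - i - j) ≥ C n` then `f_i(n) ≤ f_j(n)`, and
if `n / 2 ≤ i ≤ j ≤ n` and `(j - i) (i + j - n) ≥ C n` then `f_j(n) ≤ f_i(n)`. -/
theorem result :
    (∃ C : ℝ, 0 < C ∧ ∀ J : ℕ, 3 ≤ J → ∃ N0 : ℕ, ∀ N : ℕ, N0 ≤ N →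
      (((Ioc (N / 2) N).filter (fun n : ℕ => ¬ UnimodalUpToLag J n)).card : ℝ) ≤ C * N / J) ∧
    (∀ J : ℕ, 3 ≤ J → ∀ ε : ℝ, 0 < ε → ∃ N0 : ℕ, ∀ N : ℕ, N0 ≤ N →
      (1 - 2 / (J : ℝ) - ε) * Real.log N ≤
        ∑ n ∈ (Icc 1 N).filter (UnimodalUpToLag J), (1 : ℝ) / n) ∧
    (∃ C : ℕ, ∃ n0 : ℕ, ∀ n : ℕ, n0 ≤ n →
      (∀ i j : ℕ, i ≤ j → 2 * j ≤ n → C * n ≤ (j - i) * (n - i - j) → f n i ≤ f n j) ∧
      (∀ i j : ℕ, n ≤ 2 * i → i ≤ j → j ≤ n → C * n ≤ (j - i) * (i + j - n) → f n j ≤ f n i)) :=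
  ⟨Helper46.R.lu_window, fun J hJ ε hε => Helper46.R.lag_main J hJ ε hε, Helper46.R.lag_all'⟩

end Pool.Agent.Results.MP_e1cc60_co.AllDensities
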