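import Pool.Agent.Helper46.R.LagNat

set_option autoImplicit false

namespace Pool.Agent.Results.MP_e1cc60_co.LagUnimodalNatural

open Finset

/-- The number `f_r(n)` of isomorphism classes of matroids of rank `r` on `n` elements. -/
noncomputable def f (n r : ℕ) : ℕ :=
  Nat.card (Quot (fun M₁ M₂ : {M : Matroid (Fin n) // M.E = Set.univ ∧ M.eRank = (r : ℕ∞)} =>
    ∃ σ : Equiv.Perm (Fin n), ∀ I : Set (Fin n), M₁.val.Indep I ↔ M₂.val.Indep (σ '' I)))

/-- Unimodality of `r ↦ f_r(n)` up to lag `J`, with the peak in the middle: `f_i(n) ≤ f_j(n)` whenever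
`i + J ≤ j ≤ n / 2`, and `f_j(n) ≤ f_i(n)` whenever `n / 2 ≤ i ≤ j - J`.
(Lag `1` is unimodality in the usual sense.) -/
def UnimodalUpToLag (J n : ℕ) : Prop :=
  (∀ i j : ℕ, i + J ≤ j → 2 * j ≤ n → f n i ≤ f n j) ∧
  (∀ i j : ℕ, n ≤ 2 * i → i + J ≤ j → f n j ≤ f n i)

open Classical in
/-- There is a constant `C` such that for every `J ≥ 3` and all large `N`, the numbers of matroids of
given rank are unimodal up to lag `J` for all but at most `C N / J` of the `n` with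
`N / 2 < n ≤ N`. -/
theorem result : ∃ C : ℝ, 0 < C ∧ ∀ J : ℕ, 3 ≤ J → ∃ N0 : ℕ, ∀ N : ℕ, N0 ≤ N →
    (((Ioc (N / 2) N).filter (fun n : ℕ => ¬ UnimodalUpToLag J n)).card : ℝ) ≤ C * N / J :=
  Helper46.R.lu_window

end Pool.Agent.Results.MP_e1cc60_co.LagUnimodalNatural
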